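import Mathlib

/-!
Rearrangements of a list of decimal digits from `{1, 3, 7, 9}` modulo `7`.
-/

namespace Pool.Agent.LibH97.PermPrime

/-- the possible digits -/
def dgs : List ℕ := [1, 3, 7, 9]

/-- all residues modulo `7` are reached by rearrangements -/
def Cov (l : List ℕ) : Prop := ∀ r < 7, ∃ l' : List ℕ, l'.Perm l ∧ Nat.ofDigits 10 l' % 7 = r

theorem Cov.perm {l l' : List ℕ} (h : Cov l) (hp : l.Perm l') : Cov l' := by
  intro r hr
  obtain ⟨m, hm, hm'⟩ := h r hr
  exact ⟨m, hm.trans hp, hm'⟩

theorem Cov.cons {l : List ℕ} (h : Cov l) (d : ℕ) : Cov (d :: l) := by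
  intro r hr
  obtain ⟨m, hm, hm'⟩ := h ((r + 6 * (10 ^ l.length * d)) % 7) (Nat.mod_lt _ (by norm_num))
  refine ⟨m ++ [d], ?_, ?_⟩
  · exact (List.perm_append_comm.trans (by simpa using hm.cons d))
  · rw [Nat.ofDigits_append, Nat.ofDigits_singleton, hm.length_eq]
    generalize 10 ^ l.length * d = x at *
    omega

/-- canonical list with given numbers of digits -/
def canon (c1 c3 c7 c9 : ℕ) : List ℕ :=
  List.replicate c1 1 ++ (List.replicate c3 3 ++ (List.replicate c7 7 ++ List.replicate c9 9))

theorem perm_canon (l : List ℕ) (hl : ∀ d ∈ l, d ∈ dgs) :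
    l.Perm (canon (l.count 1) (l.count 3) (l.count 7) (l.count 9)) := by
  rw [List.perm_iff_count]
  intro d
  simp only [canon, List.count_append, List.count_replicate]
  by_cases hd : d ∈ l
  · have := hl d hd
    simp only [dgs, List.mem_cons, List.not_mem_nil, or_false] at this
    rcases this with rfl | rfl | rfl | rfl <;> simp
  · have h0 : l.count d = 0 := List.count_eq_zero.mpr hd
    rw [h0]
    by_cases h1 : 1 = d
    · subst h1; simp [h0]
    by_cases h3 : 3 = d
    · subst h3; simp [h0]
    by_cases h7 : 7 = d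
    · subst h7; simp [h0]
    by_cases h9 : 9 = d
    · subst h9; simp [h0]
    simp [h1, h3, h7, h9]

theorem length_eq (l : List ℕ) (hl : ∀ d ∈ l, d ∈ dgs) :
    l.length = l.count 1 + l.count 3 + l.count 7 + l.count 9 := by
  have := (perm_canon l hl).length_eq
  simp only [canon, List.length_append, List.length_replicate] at this
  omega

/-- decidable version -/
def covB (l : List ℕ) : Bool :=
  (List.range 7).all fun r => l.permutations'.any fun l' => Nat.ofDigits 10 l' % 7 == r

theorem cov_of_covB {l : List ℕ} (h : covB l = true) : Cov l := by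
  intro r hr
  simp only [covB, List.all_eq_true, List.mem_range, List.any_eq_true, beq_iff_eq] at h
  obtain ⟨l', hl', hr'⟩ := h r hr
  exact ⟨l', List.mem_permutations'.mp hl', hr'⟩

def baseB : Bool :=
  (List.range 6).all fun c1 => (List.range 6).all fun c3 => (List.range 6).all fun c7 =>
    (List.range 6).all fun c9 => !(c1 + c3 + c7 + c9 == 7) || covB (canon c1 c3 c7 c9)

theorem baseB_true : baseB = true := by decide +kernel

theorem cov_base (c1 c3 c7 c9 : ℕ) (h1 : c1 ≤ 5) (h3 : c3 ≤ 5) (h7 : c7 ≤ 5) (h9 : c9 ≤ 5)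
    (h : c1 + c3 + c7 + c9 = 7) : Cov (canon c1 c3 c7 c9) := by
  have hb := baseB_true
  simp only [baseB, List.all_eq_true, List.mem_range, Bool.or_eq_true, Bool.not_eq_true',
    beq_eq_false_iff_ne] at hb
  rcases hb c1 (by omega) c3 (by omega) c7 (by omega) c9 (by omega) with h' | h'
  · exact absurd h h'
  · exact cov_of_covB h'

theorem cov_of_notNear (n : ℕ) : ∀ l : List ℕ, l.length = n + 7 → (∀ d ∈ l, d ∈ dgs) →
    (∀ a ∈ dgs, l.count a + 2 ≤ l.length) → Cov l := by
  induction n with
  | zero =>
    intro l hlen hl h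
    have e := length_eq l hl
    have h1 := h 1 (by simp [dgs])
    have h3 := h 3 (by simp [dgs])
    have h7 := h 7 (by simp [dgs])
    have h9 := h 9 (by simp [dgs])
    exact (cov_base _ _ _ _ (by omega) (by omega) (by omega) (by omega) (by omega)).perm
      (perm_canon l hl).symm
  | succ n ih =>
    intro l hlen hl h
    have e := length_eq l hl
    obtain ⟨a, ha, hmax⟩ : ∃ a ∈ dgs, ∀ b ∈ dgs, l.count b ≤ l.count a := by
      simp only [dgs, List.mem_cons, List.not_mem_nil, or_false]
      by_contra hcon
      push Not at hcon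
      obtain ⟨b1, hb1, k1⟩ := hcon 1 (Or.inl rfl)
      obtain ⟨b3, hb3, k3⟩ := hcon 3 (Or.inr (Or.inl rfl))
      obtain ⟨b7, hb7, k7⟩ := hcon 7 (Or.inr (Or.inr (Or.inl rfl)))
      obtain ⟨b9, hb9, k9⟩ := hcon 9 (Or.inr (Or.inr (Or.inr rfl)))
      rcases hb1 with rfl | rfl | rfl | rfl <;> rcases hb3 with rfl | rfl | rfl | rfl <;>
        rcases hb7 with rfl | rfl | rfl | rfl <;> rcases hb9 with rfl | rfl | rfl | rfl <;> omega
    have hpos : 0 < l.count a := by
      have m1 := hmax 1 (by simp [dgs])
      have m3 := hmax 3 (by simp [dgs])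
      have m7 := hmax 7 (by simp [dgs])
      have m9 := hmax 9 (by simp [dgs])
      omega
    have hmem : a ∈ l := List.count_pos_iff.mp hpos
    have hperm : l.Perm (a :: l.erase a) := List.perm_cons_erase hmem
    refine Cov.perm ?_ hperm.symm
    apply Cov.cons
    have hlen' : (l.erase a).length = n + 7 := by
      rw [List.length_erase_of_mem hmem, hlen]; omega
    refine ih _ hlen' (fun d hd => hl d (List.mem_of_mem_erase hd)) ?_
    intro b hb
    rw [hlen']
    have hb' := h b hb
    by_cases hba : b = a
    · subst hba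
      rw [List.count_erase_self]
      omega
    · rw [List.count_erase_of_ne hba]
      have hsum : l.count b + l.count a ≤ l.length := by
        simp only [dgs, List.mem_cons, List.not_mem_nil, or_false] at ha hb
        rcases ha with rfl | rfl | rfl | rfl <;> rcases hb with rfl | rfl | rfl | rfl <;>
          first | exact absurd rfl hba | omega
      have := hmax b hb
      omega

end Pool.Agent.LibH97.PermPrime
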