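import Mathlib
import Pool.Agent.Lib_helper97.PermPrime.Cover

/-!
Lists of digits all rearrangements of which are prime.
-/

namespace Pool.Agent.LibH97.PermPrime

/-- all rearrangements are prime -/
def AllPrime (l : List ℕ) : Prop := ∀ l' : List ℕ, l'.Perm l → (Nat.ofDigits 10 l').Prime

theorem AllPrime.perm {l l' : List ℕ} (h : AllPrime l) (hp : l.Perm l') : AllPrime l' :=
  fun m hm => h m (hm.trans hp.symm)

/-- some small primes -/
def smallPrimes : List ℕ :=
  [2, 3, 5, 7, 11, 13, 17, 19, 23, 29, 31, 37, 41, 43, 47, 53, 59, 61, 67, 71, 73, 79, 83, 89, 97,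
    101, 103, 107, 109, 113, 127, 131]

/-- there is a small proper factor -/
def sf (v : ℕ) : Bool := smallPrimes.any fun q => v % q == 0 && !(v == q)

theorem not_prime_of_sf {v : ℕ} (h : sf v = true) : ¬ v.Prime := by
  simp only [sf, List.any_eq_true, Bool.and_eq_true, beq_iff_eq, Bool.not_eq_true',
    beq_eq_false_iff_ne] at h
  obtain ⟨q, hq, h1, h2⟩ := h
  intro hv
  have hq2 : q ≠ 1 := by
    rintro rfl
    revert hq
    decide
  rcases (Nat.dvd_prime hv).mp (Nat.dvd_of_mod_eq_zero h1) with h3 | h3
  · exact hq2 h3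
  · exact h2 h3.symm

/-- some rearrangement has a small factor -/
def sfPerm (l : List ℕ) : Bool := l.permutations'.any fun l' => sf (Nat.ofDigits 10 l')

theorem not_allPrime_of_sfPerm {l : List ℕ} (h : sfPerm l = true) : ¬ AllPrime l := by
  intro hl
  simp only [sfPerm, List.any_eq_true] at h
  obtain ⟨l', hl', h'⟩ := h
  exact not_prime_of_sf h' (hl l' (List.mem_permutations'.mp hl'))

/-- lists of four, five or six digits -/
def midB : Bool :=
  (List.range 7).all fun c1 => (List.range 7).all fun c3 => (List.range 7).all fun c7 =>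
    (List.range 7).all fun c9 =>
      let s := c1 + c3 + c7 + c9
      !(3 < s && s < 7) || c1 == s || c3 == s || c7 == s || c9 == s || sfPerm (canon c1 c3 c7 c9)

theorem midB_true : midB = true := by decide +kernel

theorem not_allPrime_mid (l : List ℕ) (hl : ∀ d ∈ l, d ∈ dgs) (h3 : 3 < l.length)
    (h7 : l.length < 7) (hne : ∀ a ∈ dgs, l.count a ≠ l.length) : ¬ AllPrime l := by
  have hb := midB_true
  simp only [midB, List.all_eq_true, List.mem_range, Bool.or_eq_true, Bool.not_eq_true',
    Bool.and_eq_false_iff, decide_eq_false_iff_not, beq_iff_eq] at hb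
  have e := length_eq l hl
  have n1 := hne 1 (by simp [dgs])
  have n3 := hne 3 (by simp [dgs])
  have n7 := hne 7 (by simp [dgs])
  have n9 := hne 9 (by simp [dgs])
  intro hall
  have hall' := hall.perm (perm_canon l hl)
  rcases hb (l.count 1) (by omega) (l.count 3) (by omega) (l.count 7) (by omega)
    (l.count 9) (by omega) with ((((h | h) | h) | h) | h) | h
  · omega
  · omega
  · omega
  · omega
  · omega
  · exact not_allPrime_of_sfPerm h hall'

/-- lists of two or three digits -/
def lowB (L : List ℕ) : Bool :=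
  (dgs.all fun a => dgs.all fun b => a == b || L.contains (Nat.ofDigits 10 [a, b]) ||
    sfPerm [a, b]) &&
  (dgs.all fun a => dgs.all fun b => dgs.all fun c => (a == b && b == c) ||
    L.contains (Nat.ofDigits 10 [a, b, c]) || sfPerm [a, b, c])

/-- the list of the problem -/
def lst : List ℕ := [13, 31, 17, 71, 37, 73, 79, 97, 113, 131, 311, 199, 919, 991, 337, 373, 733]

theorem lowB_true : lowB lst = true := by decide +kernel

theorem low (l : List ℕ) (hl : ∀ d ∈ l, d ∈ dgs) (h2 : 2 ≤ l.length)
    (h3 : l.length < 4) (hne : ∀ a ∈ dgs, l.count a ≠ l.length) (hall : AllPrime l) :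
    Nat.ofDigits 10 l ∈ lst := by
  have hb := lowB_true
  simp only [lowB, Bool.and_eq_true, List.all_eq_true, Bool.or_eq_true, beq_iff_eq,
    List.contains_iff_mem] at hb
  obtain ⟨hb2, hb3⟩ := hb
  match l, h2, h3 with
  | [a, b], _, _ =>
    rcases hb2 a (hl a (by simp)) b (hl b (by simp)) with (h | h) | h
    · subst h
      exact absurd (by simp) (hne a (hl a (by simp)))
    · exact h
    · exact absurd hall (not_allPrime_of_sfPerm h)
  | [a, b, c], _, _ =>
    rcases hb3 a (hl a (by simp)) b (hl b (by simp)) c (hl c (by simp)) with (h | h) | h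
    · obtain ⟨rfl, rfl⟩ := h
      exact absurd (by simp) (hne a (hl a (by simp)))
    · exact h
    · exact absurd hall (not_allPrime_of_sfPerm h)

/-- the number with `n - 1` digits `a` and a digit `b` in position `j` -/
def nr (a b n j : ℕ) : ℕ :=
  Nat.ofDigits 10 (List.replicate j a ++ b :: List.replicate (n - 1 - j) a)

theorem ofDigits_replicate (a k : ℕ) :
    9 * Nat.ofDigits 10 (List.replicate k a) + a = a * 10 ^ k := by
  induction k with
  | zero => simp
  | succ k ih =>
    rw [List.replicate_succ, Nat.ofDigits_cons, pow_succ]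
    nlinarith [ih]

theorem nine_nr (a b n j : ℕ) (hj : j < n) :
    9 * nr a b n j + a + 9 * a * 10 ^ j = a * 10 ^ n + 9 * b * 10 ^ j := by
  unfold nr
  rw [Nat.ofDigits_append, Nat.ofDigits_cons, List.length_replicate]
  have h1 := ofDigits_replicate a j
  have h2 := ofDigits_replicate a (n - 1 - j)
  have h3 : 10 ^ n = 10 ^ j * (10 * 10 ^ (n - 1 - j)) := by
    rw [← pow_succ', ← pow_add]
    congr 1
    omega
  rw [h3]
  generalize Nat.ofDigits 10 (List.replicate j a) = x at *
  generalize Nat.ofDigits 10 (List.replicate (n - 1 - j) a) = y at *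
  generalize 10 ^ j = u at *
  generalize 10 ^ (n - 1 - j) = w at *
  have h4 : a * (u * (10 * w)) = 10 * u * (9 * y + a) := by rw [h2]; ring
  rw [h4]
  nlinarith [h1]

end Pool.Agent.LibH97.PermPrime
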