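import Mathlib
import Pool.Agent.Lib_helper97.PermPrime.Near

/-!
Near-repdigits of large length.
-/

namespace Pool.Agent.LibH97.PermPrime

/-- near-repdigits with `7` to `17` digits -/
def nearB : Bool :=
  (List.range 11).all fun k => dgs.all fun a => dgs.all fun b => a == b ||
    (List.range (k + 7)).any fun j => sf (nr a b (k + 7) j)

theorem nearB_true : nearB = true := by decide +kernel

theorem near_small (a b n : ℕ) (ha : a ∈ dgs) (hb : b ∈ dgs) (hab : a ≠ b) (h7 : 7 ≤ n)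
    (h18 : n < 18) (h : ∀ j < n, (nr a b n j).Prime) : False := by
  have hB := nearB_true
  simp only [nearB, List.all_eq_true, List.mem_range, Bool.or_eq_true, beq_iff_eq,
    List.any_eq_true] at hB
  rcases hB (n - 7) (by omega) a ha b hb with h1 | ⟨j, hj, h1⟩
  · exact hab h1
  · have e : n - 7 + 7 = n := by omega
    rw [e] at hj h1
    exact not_prime_of_sf h1 (h j hj)

/-- residues modulo `19` -/
def modB : Bool :=
  (List.range 18).all fun r => dgs.all fun a => dgs.all fun b => a == b || r == 0 ||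
    (List.range 18).any fun j => (a * 10 ^ r + 9 * b * 10 ^ j) % 19 == (a + 9 * a * 10 ^ j) % 19

theorem modB_true : modB = true := by decide +kernel

theorem nr_lower (a b n j : ℕ) (ha : 1 ≤ a) (hb : 1 ≤ b) (hj : j < n) (hn : 3 ≤ n) :
    100 < nr a b n j := by
  have h : 9 * nr a b n j + a + 9 * a * 10 ^ j = a * 10 ^ n + 9 * b * 10 ^ j := nine_nr a b n j hj
  have h1 : 10 ^ n = 10 ^ j * (10 * 10 ^ (n - 1 - j)) := by
    rw [← pow_succ', ← pow_add]
    congr 1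
    omega
  have h2 : 1 ≤ 10 ^ (n - 1 - j) := Nat.one_le_pow _ _ (by norm_num)
  have h3 : 1 ≤ 10 ^ j := Nat.one_le_pow _ _ (by norm_num)
  have h4 : 1000 ≤ 10 ^ n := by
    calc 1000 = 10 ^ 3 := by norm_num
      _ ≤ 10 ^ n := Nat.pow_le_pow_right (by norm_num) hn
  -- `a 10^n ≥ a 10^n/10 * ...`
  rcases Nat.eq_or_lt_of_le (show j ≤ n - 1 by omega) with hjn | hjn
  · -- leading digit is `b`
    have h5 : 10 ^ n = 10 * 10 ^ j := by
      rw [hjn, ← pow_succ']; congr 1; omega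
    have h6 : 100 ≤ 10 ^ j := by omega
    rw [h5] at h
    have h7 : 9 * b * 10 ^ j ≥ 9 * 10 ^ j := by nlinarith
    have h8 : a * (10 * 10 ^ j) = 9 * a * 10 ^ j + a * 10 ^ j := by ring
    have h9 : a * 10 ^ j ≥ a * 100 := Nat.mul_le_mul_left a h6
    omega
  · have h5 : 10 ^ n = 10 ^ (n - 1 - j - 1) * (10 * (10 * 10 ^ j)) := by
      rw [← pow_succ', ← pow_succ', ← pow_add]
      congr 1
      omega
    have h6 : 10 ^ n ≥ 10 * (10 * 10 ^ j) := by
      rw [h5]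
      exact Nat.le_mul_of_pos_left _ (by positivity)
    have h7 : 9 * b * 10 ^ j ≥ 9 * 10 ^ j := by nlinarith
    have h8 : a * 10 ^ n ≥ a * (100 * 10 ^ j) := by
      apply Nat.mul_le_mul_left; omega
    have h9 : a * 10 ^ n * 10 ≥ 9 * a * 10 ^ j + 9 * (a * 1000) := by
      nlinarith [Nat.mul_le_mul_left a h4]
    have h10 : a * (100 * 10 ^ j) = 100 * (a * 10 ^ j) := by ring
    have h11 : 9 * a * 10 ^ j = 9 * (a * 10 ^ j) := by ring
    have h12 : a * 1000 ≤ a * 10 ^ n := Nat.mul_le_mul_left a h4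
    omega

theorem dvd_eighteen (a b n : ℕ) (ha : a ∈ dgs) (hb : b ∈ dgs) (hab : a ≠ b) (h18 : 18 ≤ n)
    (h : ∀ j < n, (nr a b n j).Prime) : 18 ∣ n := by
  by_contra hdvd
  have hB := modB_true
  simp only [modB, List.all_eq_true, List.mem_range, Bool.or_eq_true, beq_iff_eq,
    List.any_eq_true] at hB
  rcases hB (n % 18) (Nat.mod_lt _ (by norm_num)) a ha b hb with (h1 | h1) | ⟨j, hj, h1⟩
  · exact hab h1
  · exact hdvd (Nat.dvd_of_mod_eq_zero h1)
  · have hpow : 10 ^ n ≡ 10 ^ (n % 18) [MOD 19] := by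
      have e : n = 18 * (n / 18) + n % 18 := (Nat.div_add_mod n 18).symm
      have h2 : 10 ^ (18 * (n / 18)) ≡ 1 [MOD 19] := by
        rw [pow_mul]
        have h3 : 10 ^ 18 ≡ 1 [MOD 19] := by decide
        simpa using h3.pow (n / 18)
      nth_rewrite 1 [e]
      rw [pow_add]
      simpa using h2.mul_right (10 ^ (n % 18))
    have hj' : j < n := by omega
    have h9 := nine_nr a b n j hj'
    have h2 : a * 10 ^ n + 9 * b * 10 ^ j ≡ a + 9 * a * 10 ^ j [MOD 19] :=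
      ((hpow.mul_left a).add_right _).trans h1
    rw [← h9] at h2
    have h3 : 9 * nr a b n j + (a + 9 * a * 10 ^ j) ≡ 0 + (a + 9 * a * 10 ^ j) [MOD 19] := by
      rw [← add_assoc, zero_add]; exact h2
    have h4 : 9 * nr a b n j ≡ 0 [MOD 19] := Nat.ModEq.add_right_cancel' _ h3
    have h5 : 19 ∣ 9 * nr a b n j := (Nat.modEq_zero_iff_dvd).mp h4
    have h6 : 19 ∣ nr a b n j := by
      rcases (Nat.Prime.dvd_mul (by norm_num : Nat.Prime 19)).mp h5 with h7 | h7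
      · exact absurd h7 (by norm_num)
      · exact h7
    have h7 : nr a b n j = 19 := by
      rcases (Nat.dvd_prime (h j hj')).mp h6 with h8 | h8
      · exact absurd h8 (by norm_num)
      · exact h8.symm
    have hd : ∀ d ∈ dgs, 1 ≤ d := by decide
    have := nr_lower a b n j (hd a ha) (hd b hb) hj' (by omega)
    omega

/-- `9, 1`: the number `10 ^ n - 9` with `n` even. -/
theorem elim_nine_one (n : ℕ) (hn : 18 ∣ n) (h0 : 0 < n) (h : (nr 9 1 n 0).Prime) : False := by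
  obtain ⟨k, rfl⟩ := hn
  have h1 := nine_nr 9 1 (18 * k) 0 h0
  have hX : 10 ^ (18 * k) = 10 ^ (9 * k) * 10 ^ (9 * k) := by rw [← pow_add]; congr 1; ring
  have hk : 1 ≤ k := by omega
  have hX1 : 10 ≤ 10 ^ (9 * k) := by
    calc 10 = 10 ^ 1 := by norm_num
      _ ≤ 10 ^ (9 * k) := Nat.pow_le_pow_right (by norm_num) (by omega)
  rw [hX] at h1
  obtain ⟨x, hx⟩ : ∃ x, 10 ^ (9 * k) = x + 3 := ⟨10 ^ (9 * k) - 3, by omega⟩
  rw [hx] at h1 hX1
  have h2 : nr 9 1 (18 * k) 0 = x * (x + 6) := by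
    simp only [pow_zero, mul_one] at h1
    nlinarith
  rw [h2] at h
  rcases Nat.prime_mul_iff.mp h with ⟨-, h3⟩ | ⟨-, h3⟩ <;> omega

/-- `9, 7`: the number `X ^ 3 - 2 X - 1`. -/
theorem elim_nine_seven (n : ℕ) (hn : 18 ∣ n) (h0 : 0 < n)
    (h : ∀ j < n, (nr 9 7 n j).Prime) : False := by
  obtain ⟨k, rfl⟩ := hn
  have hk : 1 ≤ k := by omega
  have hj : 6 * k < 18 * k := by omega
  have h1 := nine_nr 9 7 (18 * k) (6 * k) hj
  have hX : 10 ^ (18 * k) = 10 ^ (6 * k) * 10 ^ (6 * k) * 10 ^ (6 * k) := by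
    rw [← pow_add, ← pow_add]; congr 1; ring
  have hX1 : 10 ≤ 10 ^ (6 * k) := by
    calc 10 = 10 ^ 1 := by norm_num
      _ ≤ 10 ^ (6 * k) := Nat.pow_le_pow_right (by norm_num) (by omega)
  have hp := h (6 * k) hj
  rw [hX] at h1
  obtain ⟨x, hx⟩ : ∃ x, 10 ^ (6 * k) = x + 2 := ⟨10 ^ (6 * k) - 2, by omega⟩
  rw [hx] at h1 hX1
  have h2 : nr 9 7 (18 * k) (6 * k) = (x + 3) * (x * x + 3 * x + 1) := by
    nlinarith
  rw [h2] at hp
  rcases Nat.prime_mul_iff.mp hp with ⟨-, h3⟩ | ⟨-, h3⟩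
  · nlinarith
  · omega

/-- `1, 9`: nine times the number is `X ^ 6 + 72 X ^ 2 - 1`. -/
theorem elim_one_nine (n : ℕ) (hn : 18 ∣ n) (h0 : 0 < n)
    (h : ∀ j < n, (nr 1 9 n j).Prime) : False := by
  obtain ⟨k, rfl⟩ := hn
  have hk : 1 ≤ k := by omega
  have hj : 6 * k < 18 * k := by omega
  have h1 := nine_nr 1 9 (18 * k) (6 * k) hj
  obtain ⟨X, hXdef⟩ : ∃ X, X = 10 ^ (3 * k) := ⟨_, rfl⟩
  have hX : 10 ^ (18 * k) = X ^ 6 := by
    rw [hXdef, ← pow_mul]; congr 1; ring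
  have hX2 : 10 ^ (6 * k) = X ^ 2 := by
    rw [hXdef, ← pow_mul]; congr 1; ring
  have hX1 : 10 ≤ X := by
    rw [hXdef]
    calc 10 = 10 ^ 1 := by norm_num
      _ ≤ 10 ^ (3 * k) := Nat.pow_le_pow_right (by norm_num) (by omega)
  have hp := h (6 * k) hj
  rw [hX, hX2] at h1
  obtain ⟨x, hx⟩ : ∃ x, X = x + 10 := ⟨X - 10, by omega⟩
  obtain ⟨f, hf⟩ : ∃ f, f = x ^ 3 + 26 * x ^ 2 + 228 * x + 681 := ⟨_, rfl⟩
  obtain ⟨g, hg⟩ : ∃ g, g = x ^ 3 + 34 * x ^ 2 + 388 * x + 1479 := ⟨_, rfl⟩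
  have h2 : 9 * nr 1 9 (18 * k) (6 * k) = f * g := by
    have h3 : (x + 10) ^ 6 + 81 * (x + 10) ^ 2 = f * g + 1 + 9 * (x + 10) ^ 2 := by
      rw [hf, hg]; ring
    rw [hx] at h1
    nlinarith
  set N := nr 1 9 (18 * k) (6 * k) with hN
  have hfg : N ∣ f * g := ⟨9, by rw [← h2]; ring⟩
  rcases (Nat.Prime.dvd_mul hp).mp hfg with ⟨c, hc⟩ | ⟨c, hc⟩
  · have hc0 : 1 ≤ c := by
      rcases Nat.eq_zero_or_pos c with h' | h'
      · rw [h', mul_zero] at hc; omega
      · exact h'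
    have : N ≤ f := by rw [hc]; exact Nat.le_mul_of_pos_right _ hc0
    have h3 : f * g ≤ 9 * f := by rw [← h2]; omega
    have h4 : g ≤ 9 := by
      have hfpos : 0 < f := by omega
      have h5 : g * f ≤ 9 * f := by rw [mul_comm]; exact h3
      exact Nat.le_of_mul_le_mul_right h5 hfpos
    omega
  · have hc0 : 1 ≤ c := by
      rcases Nat.eq_zero_or_pos c with h' | h'
      · rw [h', mul_zero] at hc; omega
      · exact h'
    have : N ≤ g := by rw [hc]; exact Nat.le_mul_of_pos_right _ hc0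
    have h3 : f * g ≤ 9 * g := by rw [← h2]; omega
    have h4 : f ≤ 9 := by
      have hgpos : 0 < g := by omega
      exact Nat.le_of_mul_le_mul_right h3 hgpos
    omega

/-- Types for which the number is divisible by three. -/
theorem elim_three (a b n : ℕ) (hn : 18 ∣ n) (h0 : 0 < n) (ha : 1 ≤ a) (hb : 1 ≤ b)
    (hab : a % 3 = b % 3) (h : (nr a b n 0).Prime) : False := by
  have h1 : nr a b n 0 % 3 = 0 := by
    obtain ⟨k, rfl⟩ := hn
    have h2 := nine_nr a b (18 * k) 0 h0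
    have h3 : 10 ^ (18 * k) % 27 = 1 := by
      rw [pow_mul, Nat.pow_mod]
      norm_num
    obtain ⟨c, hc⟩ : ∃ c, 10 ^ (18 * k) = 27 * c + 1 := ⟨10 ^ (18 * k) / 27, by omega⟩
    rw [hc] at h2
    simp only [pow_zero, mul_one] at h2
    have h4 : a * (27 * c + 1) = 27 * (a * c) + a := by ring
    rw [h4] at h2
    omega
  have h2 := (Nat.prime_dvd_prime_iff_eq Nat.prime_three h).mp (Nat.dvd_of_mod_eq_zero h1)
  have := nr_lower a b n 0 ha hb h0 (by obtain ⟨k, rfl⟩ := hn; omega)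
  omega

end Pool.Agent.LibH97.PermPrime
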