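import Mathlib
import Pool.Agent.Lib_helper97.PermPrime.Elim

/-!
Structure of the lists of digits all rearrangements of which are prime.
-/

namespace Pool.Agent.LibH97.PermPrime

theorem dgs_bounds : ∀ d ∈ dgs, 1 ≤ d ∧ d < 10 := by decide

theorem ofDigits_pos {l : List ℕ} (hl : ∀ d ∈ l, 1 ≤ d) (h : l ≠ []) :
    1 ≤ Nat.ofDigits 10 l := by
  cases l with
  | nil => exact absurd rfl h
  | cons a t =>
    rw [Nat.ofDigits_cons]
    have := hl a (by simp)
    omega

/-- No rearrangement class with all digits in `{1, 3, 7, 9}` and all residues modulo `7`. -/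
theorem not_allPrime_of_cov {l : List ℕ} (hc : Cov l) (hl : ∀ d ∈ l, 1 ≤ d) (h2 : 2 ≤ l.length) :
    ¬ AllPrime l := by
  intro h
  obtain ⟨l', hl', h7⟩ := hc 0 (by norm_num)
  have hp := h l' hl'
  have h3 := (Nat.prime_dvd_prime_iff_eq (by norm_num : Nat.Prime 7) hp).mp
    (Nat.dvd_of_mod_eq_zero h7)
  have hlen := hl'.length_eq
  have hl1 : ∀ d ∈ l', 1 ≤ d := fun d hd => hl d (hl'.mem_iff.mp hd)
  match l', hlen, hl1, h3 with
  | [], hlen, _, _ => simp at hlen; omega
  | [_], hlen, _, _ => simp at hlen; omega
  | a :: b :: t, _, hl1, h3 =>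
    rw [Nat.ofDigits_cons, Nat.ofDigits_cons] at h3
    have ha := hl1 a (by simp)
    have hb := hl1 b (by simp)
    omega

/-- All digits are `1, 3, 7, 9`. -/
theorem mem_dgs_of_allPrime {l : List ℕ} (hlt : ∀ d ∈ l, d < 10) (h2 : 2 ≤ l.length)
    (h : AllPrime l) : ∀ d ∈ l, d ∈ dgs := by
  have hcons : ∀ d ∈ l, (d + 10 * Nat.ofDigits 10 (l.erase d)).Prime := by
    intro d hd
    have := h (d :: l.erase d) (List.perm_cons_erase hd).symm
    rwa [Nat.ofDigits_cons] at this
  have h0 : ∀ d ∈ l, 1 ≤ d := by
    intro d hd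
    by_contra hcon
    have hd0 : d = 0 := by omega
    have h3 := hcons d hd
    rw [hd0, zero_add] at h3
    have h4 := (Nat.prime_dvd_prime_iff_eq Nat.prime_two h3).mp (by
      exact Dvd.dvd.mul_right (by norm_num) _)
    have h5 := (Nat.prime_dvd_prime_iff_eq Nat.prime_five h3).mp (by
      exact Dvd.dvd.mul_right (by norm_num) _)
    omega
  intro d hd
  have hrest : 1 ≤ Nat.ofDigits 10 (l.erase d) := by
    apply ofDigits_pos
    · intro c hc
      exact h0 c (List.mem_of_mem_erase hc)
    · intro hnil
      have := List.length_erase_of_mem hd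
      rw [hnil] at this
      simp at this
      omega
  have h3 := hcons d hd
  have h1 := h0 d hd
  have h10 := hlt d hd
  generalize Nat.ofDigits 10 (l.erase d) = x at *
  have hodd : d % 2 = 1 := by
    by_contra hcon
    have h4 := (Nat.prime_dvd_prime_iff_eq Nat.prime_two h3).mp (by omega)
    omega
  have h5 : d ≠ 5 := by
    rintro rfl
    have h4 := (Nat.prime_dvd_prime_iff_eq Nat.prime_five h3).mp (by omega)
    omega
  interval_cases d <;> simp_all [dgs]

/-- A list in which all but one of the entries are `a`. -/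
theorem near_of_count {l : List ℕ} {a : ℕ} (h : l.count a + 1 = l.length) :
    ∃ j b, j < l.length ∧ b ≠ a ∧ l = List.replicate j a ++ b :: List.replicate (l.length - 1 - j) a := by
  induction l with
  | nil => simp at h
  | cons c t ih =>
    by_cases hca : c = a
    · subst hca
      rw [List.count_cons_self, List.length_cons] at h
      obtain ⟨j, b, hj, hb, ht⟩ := ih (by omega)
      refine ⟨j + 1, b, by simp; omega, hb, ?_⟩
      rw [List.replicate_succ, List.cons_append, List.length_cons]
      have e : t.length + 1 - 1 - (j + 1) = t.length - 1 - j := by omega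
      rw [e, ← ht]
    · rw [List.count_cons_of_ne hca, List.length_cons] at h
      have hall : ∀ x ∈ t, a = x := List.count_eq_length.mp (by omega)
      refine ⟨0, c, by simp, hca, ?_⟩
      rw [List.replicate_zero, List.nil_append]
      congr 1
      have : t = List.replicate t.length a := List.eq_replicate_iff.mpr
        ⟨rfl, fun x hx => (hall x hx).symm⟩
      simpa using this

theorem nr_perm (a b n j k : ℕ) (hj : j < n) (hk : k < n) :
    (List.replicate j a ++ b :: List.replicate (n - 1 - j) a).Perm
      (List.replicate k a ++ b :: List.replicate (n - 1 - k) a) := by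
  rw [List.perm_iff_count]
  intro d
  simp only [List.count_append, List.count_cons, List.count_replicate]
  by_cases hd : a = d
  · subst hd
    simp only [beq_self_eq_true, if_true]
    omega
  · simp [hd]

/-- The main structure theorem for lists. -/
theorem main (l : List ℕ) (hlt : ∀ d ∈ l, d < 10) (hne : ∃ c ∈ l, ∃ d ∈ l, c ≠ d)
    (h : AllPrime l) : Nat.ofDigits 10 l ∈ lst ∨ ∃ a b n j : ℕ,
      (a, b) ∈ [((1 : ℕ), (3 : ℕ)), (3, 1), (3, 7), (7, 3), (7, 9)] ∧ 0 < n ∧ 18 ∣ n ∧ j < n ∧
      l = List.replicate j a ++ b :: List.replicate (n - 1 - j) a := by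
  have h2 : 2 ≤ l.length := by
    obtain ⟨c, hc, d, hd, hcd⟩ := hne
    match l, hc, hd with
    | [x], hc, hd =>
      rw [List.mem_singleton] at hc hd
      exact absurd (hc.trans hd.symm) hcd
    | _ :: _ :: _, _, _ => simp
  have hl := mem_dgs_of_allPrime hlt h2 h
  have hcne : ∀ a ∈ dgs, l.count a ≠ l.length := by
    intro a _ hcount
    obtain ⟨c, hc, d, hd, hcd⟩ := hne
    have hall := List.count_eq_length.mp hcount
    exact hcd ((hall c hc).symm.trans (hall d hd))
  rcases Nat.lt_or_ge l.length 4 with h4 | h4
  · exact Or.inl (low l hl h2 h4 hcne h)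
  rcases Nat.lt_or_ge l.length 7 with h7 | h7
  · exact absurd h (not_allPrime_mid l hl (by omega) h7 hcne)
  right
  by_cases hnear : ∀ a ∈ dgs, l.count a + 2 ≤ l.length
  · exfalso
    refine not_allPrime_of_cov (cov_of_notNear (l.length - 7) l (by omega) hl hnear) ?_ h2 h
    exact fun d hd => (dgs_bounds d (hl d hd)).1
  · push Not at hnear
    obtain ⟨a, ha, hcount⟩ := hnear
    have hle : l.count a ≤ l.length := List.count_le_length
    have hc' := hcne a ha
    obtain ⟨j, b, hj, hb, hlj⟩ := near_of_count (l := l) (a := a) (by omega)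
    have hbm : b ∈ dgs := hl b (by rw [hlj]; simp)
    obtain ⟨n, hn⟩ : ∃ n, n = l.length := ⟨_, rfl⟩
    rw [← hn] at hj hlj h7
    have hall : ∀ k < n, (nr a b n k).Prime := by
      intro k hk
      apply h
      rw [hlj]
      exact nr_perm a b n k j hk hj
    have h18 : 18 ≤ n := by
      by_contra hcon
      exact near_small a b n ha hbm (Ne.symm hb) h7 (by omega) hall
    have hdvd := dvd_eighteen a b n ha hbm (Ne.symm hb) h18 hall
    refine ⟨a, b, n, j, ?_, by omega, hdvd, hj, hlj⟩
    have hp0 := hall 0 (by omega)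
    have hba := hb
    simp only [dgs, List.mem_cons, List.not_mem_nil, or_false] at ha hbm
    rcases ha with rfl | rfl | rfl | rfl <;> rcases hbm with rfl | rfl | rfl | rfl
    · exact absurd rfl hba
    · simp
    · exact (elim_three 1 7 n hdvd (by omega) (by norm_num) (by norm_num) (by norm_num) hp0).elim
    · exact (elim_one_nine n hdvd (by omega) hall).elim
    · simp
    · exact absurd rfl hba
    · simp
    · exact (elim_three 3 9 n hdvd (by omega) (by norm_num) (by norm_num) (by norm_num) hp0).elim
    · exact (elim_three 7 1 n hdvd (by omega) (by norm_num) (by norm_num) (by norm_num) hp0).elim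
    · simp
    · exact absurd rfl hba
    · simp
    · exact (elim_nine_one n hdvd (by omega) hp0).elim
    · exact (elim_three 9 3 n hdvd (by omega) (by norm_num) (by norm_num) (by norm_num) hp0).elim
    · exact (elim_nine_seven n hdvd (by omega) hall).elim
    · exact absurd rfl hba

end Pool.Agent.LibH97.PermPrime
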